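import Pool.Agent.helper54.V3.SpecE

set_option autoImplicit false

open Complex Metric Set Filter Topology MeasureTheory

noncomputable section

namespace V3

theorem GLA : GLA_stmt := by
  intro P s hs hsep h0 hadd hneg
  by_cases hP : P = {0}
  · exact Or.inl hP
  right
  obtain ⟨t₁, ht₁P, ht₁⟩ : ∃ t₁ ∈ P, t₁ ≠ 0 := by
    by_contra hcon
    push Not at hcon
    apply hP
    ext x
    constructor
    · intro hx
      exact hcon x hx
    · intro hx
      rw [mem_singleton_iff] at hx
      rw [hx]; exact h0
  by_cases hlin : ∀ t₂ ∈ P, (t₂ / t₁).im = 0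
  · left
    let H : AddSubgroup ℝ :=
      { carrier := {r : ℝ | (r : ℂ) * t₁ ∈ P}
        add_mem' := by
          intro a b ha hb
          simp only [mem_ofPred_eq] at ha hb ⊢
          have := hadd _ ha _ hb
          rw [← add_mul] at this
          rw [Complex.ofReal_add]
          exact this
        zero_mem' := by
          simp only [mem_ofPred_eq, Complex.ofReal_zero, zero_mul]
          exact h0
        neg_mem' := by
          intro a ha
          simp only [mem_ofPred_eq] at ha ⊢
          have := hneg _ ha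
          rw [Complex.ofReal_neg, neg_mul]
          exact this }
    have hH : ∀ r : ℝ, r ∈ H ↔ (r : ℂ) * t₁ ∈ P := fun r => Iff.rfl
    have hnt : 0 < ‖t₁‖ := norm_pos_iff.mpr ht₁
    have hgap : ∀ a ∈ H, a ≠ 0 → s / ‖t₁‖ ≤ |a| := by
      intro a ha hne
      have h1 := hsep _ ((hH a).1 ha) 0 h0 (by
        intro h
        rcases mul_eq_zero.mp h with h | h
        · exact hne (Complex.ofReal_eq_zero.mp h)
        · exact ht₁ h)
      rw [sub_zero, norm_mul, Complex.norm_real, Real.norm_eq_abs] at h1
      rw [div_le_iff₀ hnt]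
      exact h1
    rcases AddSubgroup.dense_or_cyclic H with hd | ⟨r₀, hr₀⟩
    · exfalso
      obtain ⟨y, hy, hyH⟩ := hd.exists_mem_open (isOpen_Ioo (a := (0:ℝ)) (b := s / ‖t₁‖))
        ⟨s / ‖t₁‖ / 2, by constructor <;> [positivity; exact half_lt_self (by positivity)]⟩
      have := hgap y hy (ne_of_gt hyH.1)
      rw [abs_of_pos hyH.1] at this
      exact absurd hyH.2 (not_lt.mpr this)
    · have h1H : (1 : ℝ) ∈ H := by
        rw [hH]; simpa using ht₁P
      have hr₀ne : r₀ ≠ 0 := by
        intro h
        rw [hr₀, h, AddSubgroup.mem_closure_singleton] at h1H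
        obtain ⟨n, hn⟩ := h1H
        simp at hn
      refine ⟨(r₀ : ℂ) * t₁, mul_ne_zero (Complex.ofReal_ne_zero.mpr hr₀ne) ht₁, ?_⟩
      ext x
      constructor
      · intro hx
        have him := hlin x hx
        have hxr : x = (((x / t₁).re : ℝ) : ℂ) * t₁ := by
          have : x / t₁ = (((x / t₁).re : ℝ) : ℂ) := by
            apply Complex.ext
            · simp
            · simpa using him
          rw [← this]
          field_simp
        have hmem : (x / t₁).re ∈ H := by
          rw [hH, ← hxr]; exact hx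
        rw [hr₀, AddSubgroup.mem_closure_singleton] at hmem
        obtain ⟨n, hn⟩ := hmem
        refine ⟨n, ?_⟩
        rw [hxr, ← hn]
        simp [mul_assoc]
      · rintro ⟨n, rfl⟩
        have hmem : (n • r₀ : ℝ) ∈ H := by
          rw [hr₀, AddSubgroup.mem_closure_singleton]
          exact ⟨n, rfl⟩
        rw [hH] at hmem
        have : (n : ℂ) * ((r₀ : ℂ) * t₁) = ((n • r₀ : ℝ) : ℂ) * t₁ := by
          simp [mul_assoc]
        change (n : ℂ) * ((r₀ : ℂ) * t₁) ∈ P
        rw [this]
        exact hmem
  · right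
    push Not at hlin
    obtain ⟨t₂, ht₂, him⟩ := hlin
    exact ⟨t₁, ht₁P, t₂, ht₂, ht₁, him⟩

end V3
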